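import Pool.Agent.N594.CT.Stm4

/-!
# Project CT (helper594), part Y4M: the degrees of a complete 3-graph on four vertices, for all
numbers of vertices (adapted from the file `N456/CT/Y4.lean` of helper456)
-/

set_option autoImplicit false

open Finset
open scoped Classical

namespace Pool.Agent.N72.CT.Y4M

open Pool.Agent.N594.CT

/-- the number of non-edges with a pair -/
noncomputable def ff {V : Type} (H : Finset V → Prop) (K : Fin 4 → V) (u v : V) : ℕ :=
  (univ.filter fun i : Fin 4 => ¬ H (insert (K i) {u, v})).card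

theorem claim (hW : S_WM) {q M : ℕ} {V : Type} {H : Finset V → Prop} {K : Fin 4 → V}
    (hC : ClsM 3 M q H) (hK : ∀ e : Finset (Fin 4), e.card = 3 → H (e.image K)) {m : ℕ}
    {d : Fin 3 → ℕ} (hs : 4 * m + (d 0 + d 1 + d 2) = M) (h1 : ∀ j, 2 * m + d j < q)
    (h2 : m + (d 0 + d 1) < q) (h2' : m + (d 1 + d 2) < q) (h2'' : m + (d 0 + d 2) < q)
    (h3 : d 0 + d 1 + d 2 < q) (u v w : V) :
    (2 ≤ ff H K u v ∨ 2 ≤ ff H K v w ∨ 2 ≤ ff H K u w) ∨
      (2 - 1 ≤ ff H K u v ∧ 2 - 1 ≤ ff H K v w ∧ 2 - 1 ≤ ff H K u w) := by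
  let R : Fin 3 → V := ![u, v, w]
  let ρ : Fin 4 ⊕ Fin 3 → V := Sum.elim K R
  let c : Fin 4 ⊕ Fin 3 → ℕ := Sum.elim (fun _ => m) d
  obtain ⟨I, hI, hq⟩ := hW 3 M q V H hC (Fin 4 ⊕ Fin 3) ρ c (by
    rw [Fintype.sum_sum_type]
    simp only [c, Sum.elim_inl, Sum.elim_inr, Finset.sum_const, Finset.card_univ, Fintype.card_fin,
      smul_eq_mul, Fin.sum_univ_three]
    exact hs)
  obtain ⟨A, hA⟩ : ∃ A : Finset (Fin 4), A = I.toLeft := ⟨_, rfl⟩
  obtain ⟨B, hB⟩ : ∃ B : Finset (Fin 3), B = I.toRight := ⟨_, rfl⟩
  have hAm : ∀ i, i ∈ A ↔ Sum.inl i ∈ I := by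
    intro i
    rw [hA, Finset.mem_toLeft]
  have hBm : ∀ j, j ∈ B ↔ Sum.inr j ∈ I := by
    intro j
    rw [hB, Finset.mem_toRight]
  have hsum : ∑ i ∈ I, c i = A.card * m + ∑ j ∈ B, d j := by
    have e : I = A.disjSum B := by rw [hA, hB, Finset.toLeft_disjSum_toRight]
    rw [e, Finset.sum_disjSum]
    simp [c]
  have hA2 : A.card ≤ 2 := by
    by_contra hcon
    push Not at hcon
    obtain ⟨e, heA, he3⟩ := Finset.exists_subset_card_eq (show 3 ≤ A.card by omega)
    have h4 := hI (e.image Sum.inl) (by
      intro x hx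
      rw [Finset.mem_image] at hx
      obtain ⟨i, hi, rfl⟩ := hx
      exact (hAm i).1 (heA hi)) (by
      rw [Finset.card_image_of_injective _ Sum.inl_injective, he3])
    apply h4
    rw [Finset.image_image]
    exact hK e he3
  have hpair : ∀ j j' : Fin 3, j ∈ B → j' ∈ B → j ≠ j' → A.card ≤ ff H K (R j) (R j') := by
    intro j j' hj hj' hne
    unfold ff
    apply Finset.card_le_card
    intro i hi
    rw [Finset.mem_filter]
    refine ⟨Finset.mem_univ _, ?_⟩
    have h4 := hI {Sum.inl i, Sum.inr j, Sum.inr j'} (by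
      intro x hx
      simp only [Finset.mem_insert, Finset.mem_singleton] at hx
      rcases hx with rfl | rfl | rfl
      · exact (hAm i).1 hi
      · exact (hBm j).1 hj
      · exact (hBm j').1 hj') (by
      rw [Finset.card_insert_of_notMem, Finset.card_insert_of_notMem, Finset.card_singleton]
      · simp [hne]
      · simp)
    rw [Finset.image_insert, Finset.image_insert, Finset.image_singleton] at h4
    exact h4
  rw [hsum] at hq
  have hsB : ∑ j ∈ B, d j = (if (0 : Fin 3) ∈ B then d 0 else 0) +
      (if (1 : Fin 3) ∈ B then d 1 else 0) + (if (2 : Fin 3) ∈ B then d 2 else 0) := by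
    rw [← Fin.sum_univ_three (fun j : Fin 3 => if j ∈ B then d j else 0), Finset.sum_ite_mem,
      Finset.univ_inter]
  rw [hsB] at hq
  have p01 := hpair 0 1
  have p12 := hpair 1 2
  have p02 := hpair 0 2
  have r0 : R 0 = u := rfl
  have r1 : R 1 = v := rfl
  have r2 : R 2 = w := rfl
  rw [r0, r1] at p01
  rw [r1, r2] at p12
  rw [r0, r2] at p02
  have g0 := h1 0
  have g1 := h1 1
  have g2 := h1 2
  have hA012 : A.card = 0 ∨ A.card = 1 ∨ A.card = 2 := by omega
  by_cases b0 : (0 : Fin 3) ∈ B <;> by_cases b1 : (1 : Fin 3) ∈ B <;>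
    by_cases b2 : (2 : Fin 3) ∈ B <;>
    simp only [b0, b1, b2, if_true, if_false, true_implies, false_implies] at hq p01 p12 p02
  · -- all three
    right
    have q01 := p01 (by decide)
    have q12 := p12 (by decide)
    have q02 := p02 (by decide)
    rcases hA012 with h | h | h <;> rw [h] at hq q01 q12 q02 <;> omega
  · left; left
    have q01 := p01 (by decide)
    rcases hA012 with h | h | h <;> rw [h] at hq q01 <;> omega
  · left; right; right
    have q02 := p02 (by decide)
    rcases hA012 with h | h | h <;> rw [h] at hq q02 <;> omega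
  · rcases hA012 with h | h | h <;> rw [h] at hq <;> omega
  · left; right; left
    have q12 := p12 (by decide)
    rcases hA012 with h | h | h <;> rw [h] at hq q12 <;> omega
  · rcases hA012 with h | h | h <;> rw [h] at hq <;> omega
  · rcases hA012 with h | h | h <;> rw [h] at hq <;> omega
  · rcases hA012 with h | h | h <;> rw [h] at hq <;> omega

/-- **The degrees of a complete 3-graph on four vertices.** -/
theorem main (hW : S_WM) (hWT : S_WT) : Pool.Agent.N594.CT.S_Y4M := by
  intro q b hb hab V _ _ H K hU hC hK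
  have hcl : ∀ u v w, (2 ≤ ff H K u v ∨ 2 ≤ ff H K v w ∨ 2 ≤ ff H K u w) ∨
      (2 - 1 ≤ ff H K u v ∧ 2 - 1 ≤ ff H K v w ∧ 2 - 1 ≤ ff H K u w) := by
    intro u v w
    rcases hab with ⟨a, hq, hbq⟩ | ⟨a, hq, hbq⟩
    · exact claim hW hC hK (m := a) (d := fun _ => b) (by omega) (fun j => by omega)
        (by omega) (by omega) (by omega) (by omega) u v w
    · exact claim hW hC hK (m := a) (d := ![b + 1, b + 1, b])
        (by
          simp only [Matrix.cons_val_zero, Matrix.cons_val_one, Matrix.cons_val]
          omega)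
        (fun j => by
          fin_cases j <;> simp <;> omega)
        (by
          simp only [Matrix.cons_val_zero, Matrix.cons_val_one, Matrix.cons_val]
          omega)
        (by
          simp only [Matrix.cons_val_zero, Matrix.cons_val_one, Matrix.cons_val]
          omega)
        (by
          simp only [Matrix.cons_val_zero, Matrix.cons_val_one, Matrix.cons_val]
          omega)
        (by
          simp only [Matrix.cons_val_zero, Matrix.cons_val_one, Matrix.cons_val]
          omega) u v w
  have hsym : ∀ u v, ff H K u v = ff H K v u := by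
    intro u v
    unfold ff
    rw [Finset.pair_comm]
  have hdiag : ∀ v, 2 ≤ ff H K v v := by
    intro v
    unfold ff
    have h1 : (univ.filter fun i : Fin 4 => ¬ H (insert (K i) {v, v})) = univ := by
      rw [Finset.filter_eq_self]
      intro i _ h2
      have h3 := hU _ h2
      have h4 : (insert (K i) ({v, v} : Finset V)).card ≤ 2 := by
        rw [Finset.pair_eq_singleton]
        exact Finset.card_le_two
      omega
    rw [h1, Finset.card_univ, Fintype.card_fin]
    norm_num
  have hmant := hWT V (ff H K) 2 le_rfl hsym hdiag hcl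
  -- double counting
  have hn0 : 0 < Fintype.card V := Fintype.card_pos
  have hnR : (0 : ℝ) < (Fintype.card V : ℝ) := by exact_mod_cast hn0
  have hpt : ∀ y : Fin 2 → V, (univ.filter fun i : Fin 4 => H (insert (K i) (univ.image y))).card +
      ff H K (y 0) (y 1) = 4 := by
    intro y
    have h1 : (univ.image y : Finset V) = {y 0, y 1} := by
      ext x
      simp only [Finset.mem_image, Finset.mem_univ, true_and, Finset.mem_insert,
        Finset.mem_singleton]
      constructor
      · rintro ⟨j, rfl⟩
        fin_cases j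
        · exact Or.inl rfl
        · exact Or.inr rfl
      · rintro (rfl | rfl)
        · exact ⟨0, rfl⟩
        · exact ⟨1, rfl⟩
    unfold ff
    rw [h1]
    have h2 := Finset.card_filter_add_card_filter_not (s := (univ : Finset (Fin 4)))
      (fun i : Fin 4 => H (insert (K i) {y 0, y 1}))
    rw [Finset.card_univ, Fintype.card_fin] at h2
    exact h2
  have hswap : ∑ i : Fin 4, (univ.filter fun y : Fin 2 → V => H (insert (K i) (univ.image y))).card =
      ∑ y : Fin 2 → V, (univ.filter fun i : Fin 4 => H (insert (K i) (univ.image y))).card := by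
    simp only [Finset.card_filter]
    rw [Finset.sum_comm]
  have hff : ∑ y : Fin 2 → V, ff H K (y 0) (y 1) = ∑ u, ∑ v, ff H K u v := by
    rw [← Fintype.sum_prod_type' (f := fun u v => ff H K u v)]
    exact Fintype.sum_equiv (finTwoArrowEquiv V) _ _ fun y => rfl
  have htot : ∑ y : Fin 2 → V, ((univ.filter fun i : Fin 4 =>
      H (insert (K i) (univ.image y))).card + ff H K (y 0) (y 1)) = 4 * Fintype.card V ^ 2 := by
    rw [Finset.sum_congr rfl fun y _ => hpt y, Finset.sum_const, Finset.card_univ,
      Fintype.card_fun, Fintype.card_fin, smul_eq_mul]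
    ring
  rw [Finset.sum_add_distrib, ← hswap, hff] at htot
  have hle : ∑ i : Fin 4, (univ.filter fun y : Fin 2 → V =>
      H (insert (K i) (univ.image y))).card ≤ 3 * Fintype.card V ^ 2 := by omega
  have hdg : ∑ i, dg 2 H (K i) = ((∑ i : Fin 4, (univ.filter fun y : Fin 2 → V =>
      H (insert (K i) (univ.image y))).card : ℕ) : ℝ) / (Fintype.card V : ℝ) ^ 2 := by
    unfold dg
    rw [← Finset.sum_div]
    push_cast
    rfl
  rw [hdg, div_le_iff₀ (by positivity)]
  have hkap : kap 2 3 * (Fintype.card (Fin 4) : ℝ) = 3 := by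
    unfold kap
    rw [Fintype.card_fin]
    norm_num
  rw [hkap]
  exact_mod_cast hle

end Pool.Agent.N72.CT.Y4M
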